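import Pool.Agent.U174.TU.Lam

/-!
# Project TU, package COUNT (helper174)

A left `OS`-lattice has exactly 480 roots.
-/

set_option autoImplicit false
set_option linter.unusedSectionVars false

open NumberField Quaternion Module
open Pool.Agent.U68.TU

namespace Pool.Agent.U174.TU

variable {K : Type} [Field K] [NumberField K] (B : BQ K)

include B in
theorem finrankK : finrank ℚ K = 4 := by
  rw [finrank_eq_card_basis (bK B)]; simp

include B in
theorem finrankH : finrank ℚ ℍ[K] = 16 := by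
  rw [← Module.finrank_mul_finrank ℚ K ℍ[K], finrankK B, Quaternion.finrank_eq_four]

/-- the scalar product -/
def dot (x y : ℍ[K]) : K := x.re * y.re + x.imI * y.imI + x.imJ * y.imJ + x.imK * y.imK

theorem re_mul_star (x y : ℍ[K]) : (x * star y).re = dot x y := by
  rw [Quaternion.re_mul, dot]
  simp

theorem dot_self (x : ℍ[K]) : dot x x = normSq x := by
  rw [normSq_def', dot]; ring

theorem dot_comm (x y : ℍ[K]) : dot x y = dot y x := by rw [dot, dot]; ring

theorem dot_add_left (x x' y : ℍ[K]) : dot (x + x') y = dot x y + dot x' y := by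
  simp only [dot, Quaternion.re_add, Quaternion.imI_add, Quaternion.imJ_add, Quaternion.imK_add]; ring

theorem dot_smul_left (c : K) (x y : ℍ[K]) : dot (c • x) y = c * dot x y := by
  simp only [dot, Quaternion.re_smul, Quaternion.imI_smul, Quaternion.imJ_smul, Quaternion.imK_smul, smul_eq_mul]
  ring

theorem dot_qsmul_left (c : ℚ) (x y : ℍ[K]) : dot (c • x) y = (c : K) * dot x y := by
  simp only [dot, Quaternion.re_smul, Quaternion.imI_smul, Quaternion.imJ_smul, Quaternion.imK_smul, Rat.smul_def]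
  ring

/-- the rational form `λ (2 Re (x ȳ) / n)` -/
noncomputable def form (n : 𝓞 K) : LinearMap.BilinForm ℚ ℍ[K] :=
  LinearMap.mk₂ ℚ (fun x y => lamK B (2 * dot x y / (n : K)))
    (fun x x' y => by
      rw [dot_add_left, mul_add, add_div, map_add])
    (fun c x y => by
      rw [dot_qsmul_left, ← map_smul, Rat.smul_def]
      congr 1
      ring)
    (fun x y y' => by
      rw [dot_comm x (y + y'), dot_add_left, mul_add, add_div, map_add, dot_comm y x, dot_comm y' x])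
    (fun c x y => by
      rw [dot_comm x (c • y), dot_qsmul_left, ← map_smul, Rat.smul_def, dot_comm y x]
      congr 1
      ring)

theorem form_apply (n : 𝓞 K) (x y : ℍ[K]) : form B n x y = lamK B (2 * dot x y / (n : K)) := rfl

theorem form_symm (n : 𝓞 K) (x y : ℍ[K]) : form B n x y = form B n y x := by
  rw [form_apply, form_apply, dot_comm]

theorem form_pos {n : 𝓞 K} (hn : TP (n : K)) {x : ℍ[K]} (hx : x ≠ 0) : 0 < form B n x x := by
  obtain ⟨φ, w, hw, h⟩ := lam_emb B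
  have h1 : (0 : ℝ) < (form B n x x : ℚ) := by
    rw [form_apply, h]
    refine Finset.sum_pos (fun i _ => ?_) Finset.univ_nonempty
    refine mul_pos (hw i) ?_
    rw [map_div₀, map_mul]
    refine div_pos ?_ (hn (φ i))
    have h2 : φ i (2 : K) = 2 := map_ofNat _ 2
    rw [h2, dot]
    simp only [map_add, map_mul]
    have h3 : x.re ≠ 0 ∨ x.imI ≠ 0 ∨ x.imJ ≠ 0 ∨ x.imK ≠ 0 := by
      by_contra hcon
      push Not at hcon
      exact hx (Quaternion.ext _ _ hcon.1 hcon.2.1 hcon.2.2.1 hcon.2.2.2)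
    have h4 : ∀ z : K, z ≠ 0 → 0 < φ i z * φ i z := fun z hz =>
      mul_self_pos.mpr (by rwa [Ne, map_eq_zero])
    have h5 : ∀ z : K, 0 ≤ φ i z * φ i z := fun z => mul_self_nonneg _
    rcases h3 with h3 | h3 | h3 | h3 <;>
      nlinarith [h4 _ h3, h5 x.re, h5 x.imI, h5 x.imJ, h5 x.imK]
  exact_mod_cast h1

theorem form_nondeg {n : 𝓞 K} (hn : TP (n : K)) : (form B n).Nondegenerate := by
  constructor
  · intro x hx
    by_contra h
    exact (form_pos B hn h).ne' (hx x)
  · intro x hx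
    by_contra h
    exact (form_pos B hn h).ne' (hx x)

/-- the lattice as a `ℤ`-submodule -/
def subm (I : AddSubgroup ℍ[K]) : Submodule ℤ ℍ[K] := AddSubgroup.toIntSubmodule I

/-- the additive map from the coordinates to the order -/
noncomputable def par : (Fin 4 → 𝓞 K) →ₗ[ℤ] ℍ[K] where
  toFun v := ⟨(v 0 : K) + v 1 / (B.s : K) + v 2 / (B.s : K) + v 3 / 2,
    (v 1 : K) / (B.s : K) + v 3 / 2, (v 2 : K) / (B.s : K) + v 3 / 2, (v 3 : K) / 2⟩
  map_add' v w := by
    apply Quaternion.ext <;> simp <;> ring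
  map_smul' c v := by
    apply Quaternion.ext <;> simp <;> ring

theorem inOS_iff (x : ℍ[K]) : InOS B x ↔ x ∈ LinearMap.range (par B) := by
  constructor
  · rintro ⟨a, b, c, d, rfl⟩
    exact ⟨![a, b, c, d], rfl⟩
  · rintro ⟨v, rfl⟩
    exact ⟨v 0, v 1, v 2, v 3, rfl⟩

variable {B}

theorem subm_fg {I : AddSubgroup ℍ[K]} {n : 𝓞 K} (hI : Lat B I n) : (subm I).FG := by
  have h1 : (LinearMap.range (par B)).FG := by
    have : Module.Finite ℤ (Fin 4 → 𝓞 K) := inferInstance
    rw [LinearMap.range_eq_map]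
    exact this.fg_top.map _
  exact h1.of_le fun x hx => (inOS_iff B x).mp (hI.sub x hx)

theorem os_mul_nat {I : AddSubgroup ℍ[K]} {n : 𝓞 K} (hI : Lat B I n) :
    ∃ m : ℕ, 0 < m ∧ ∀ x, InOS B x → (m : ℚ) • x ∈ I := by
  obtain ⟨m, hm, h⟩ := hI.big
  refine ⟨m, hm, fun x hx => ?_⟩
  have h1 := hI.mul x _ hx h
  have h2 : (m : ℚ) • x = x * (m : ℍ[K]) := by
    rw [← Nat.cast_comm]
    rw [Nat.cast_smul_eq_nsmul, nsmul_eq_mul]
  rw [h2]
  exact h1

theorem span_top {I : AddSubgroup ℍ[K]} {n : 𝓞 K} (hI : Lat B I n) :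
    Submodule.span ℚ (subm I : Set ℍ[K]) = ⊤ := by
  obtain ⟨m, hm, h⟩ := os_mul_nat hI
  have hm' : (m : ℚ) ≠ 0 := by exact_mod_cast hm.ne'
  have h1 : ∀ x, InOS B x → x ∈ Submodule.span ℚ (subm I : Set ℍ[K]) := by
    intro x hx
    have h2 : (m : ℚ) • x ∈ Submodule.span ℚ (subm I : Set ℍ[K]) := Submodule.subset_span (h x hx)
    have h3 := Submodule.smul_mem _ ((m : ℚ)⁻¹) h2
    rwa [smul_smul, inv_mul_cancel₀ hm', one_smul] at h3
  rw [eq_top_iff]
  intro x _
  -- each coordinate is a rational combination of integers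
  have key : ∀ (j : K → ℍ[K]), (∀ (c : ℚ) (z : K), j (c • z) = c • j z) → (∀ z w, j (z + w) = j z + j w) →
      (∀ t : 𝓞 K, InOS B (j t)) → ∀ z : K, j z ∈ Submodule.span ℚ (subm I : Set ℍ[K]) := by
    intro j j1 j2 j3 z
    have hz := (bK B).sum_repr z
    rw [Fin.sum_univ_four] at hz
    rw [← hz, j2, j2, j2, j1, j1, j1, j1]
    have h4 : ∀ i, j (bK B i) ∈ Submodule.span ℚ (subm I : Set ℍ[K]) := by
      intro i
      have h5 : bK B i = ((bZ B i : 𝓞 K) : K) := by
        rw [bK, Basis.localizationLocalization_apply]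
      rw [h5]
      exact h1 _ (j3 _)
    exact Submodule.add_mem _ (Submodule.add_mem _ (Submodule.add_mem _ (Submodule.smul_mem _ _ (h4 0))
      (Submodule.smul_mem _ _ (h4 1))) (Submodule.smul_mem _ _ (h4 2))) (Submodule.smul_mem _ _ (h4 3))
  have hs0 : (B.s : K) ≠ 0 := by
    intro h0
    have := hsK B
    rw [h0] at this
    norm_num at this
  have hss := hsK B
  have k0 := key (fun z => ⟨z, 0, 0, 0⟩) (fun c z => by ext <;> simp) (fun z w => by ext <;> simp)
    (fun t => ⟨t, 0, 0, 0, by simp⟩) x.re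
  have k1 := key (fun z => ⟨0, z, 0, 0⟩) (fun c z => by ext <;> simp) (fun z w => by ext <;> simp)
    (fun t => ⟨-t, B.s * t, 0, 0, by ext <;> simp [hs0]⟩) x.imI
  have k2 := key (fun z => ⟨0, 0, z, 0⟩) (fun c z => by ext <;> simp) (fun z w => by ext <;> simp)
    (fun t => ⟨-t, 0, B.s * t, 0, by ext <;> simp [hs0]⟩) x.imJ
  have k3 := key (fun z => ⟨0, 0, 0, z⟩) (fun c z => by ext <;> simp) (fun z w => by ext <;> simp)
    (fun t => ⟨t, - (B.s * t), - (B.s * t), 2 * t, by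
      have e2 : (algebraMap (𝓞 K) K) 2 = 2 := map_ofNat _ 2
      ext <;> simp [e2] <;> field_simp <;> ring⟩) x.imK
  have hx : x = (⟨x.re, 0, 0, 0⟩ : ℍ[K]) + (⟨0, x.imI, 0, 0⟩ : ℍ[K]) + (⟨0, 0, x.imJ, 0⟩ : ℍ[K]) +
      (⟨0, 0, 0, x.imK⟩ : ℍ[K]) := by
    ext <;> simp
  rw [hx]
  exact Submodule.add_mem _ (Submodule.add_mem _ (Submodule.add_mem _ k0 k1) k2) k3

/-! ### linear algebra -/

theorem quad_eq {m : ℕ} (G : Matrix (Fin m) (Fin m) ℤ) {ι : Type} [Fintype ι] (W : ι → ℝ)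
    (L : ι → Fin m → ℝ) (hG : ∀ i j, (G i j : ℝ) = ∑ k, W k * (L k i * L k j)) (x : Fin m → ℝ) :
    ∑ i, ∑ j, x i * (G i j : ℝ) * x j = ∑ k, W k * (∑ i, x i * L k i) ^ 2 := by
  have h1 : ∀ k, W k * (∑ i, x i * L k i) ^ 2 = ∑ i, ∑ j, x i * (W k * (L k i * L k j)) * x j := by
    intro k
    rw [sq, Finset.sum_mul_sum, Finset.mul_sum]
    refine Finset.sum_congr rfl fun i _ => ?_
    rw [Finset.mul_sum]
    refine Finset.sum_congr rfl fun j _ => ?_
    ring
  calc ∑ i, ∑ j, x i * (G i j : ℝ) * x j = ∑ i, ∑ j, ∑ k, x i * (W k * (L k i * L k j)) * x j := by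
        refine Finset.sum_congr rfl fun i _ => Finset.sum_congr rfl fun j _ => ?_
        rw [hG, Finset.mul_sum, Finset.sum_mul]
    _ = ∑ i, ∑ k, ∑ j, x i * (W k * (L k i * L k j)) * x j :=
        Finset.sum_congr rfl fun i _ => Finset.sum_comm
    _ = ∑ k, ∑ i, ∑ j, x i * (W k * (L k i * L k j)) * x j := Finset.sum_comm
    _ = _ := Finset.sum_congr rfl fun k _ => (h1 k).symm

theorem posdef_of_squares {m : ℕ} (G : Matrix (Fin m) (Fin m) ℤ) {ι : Type} [Fintype ι] (W : ι → ℝ)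
    (hW : ∀ k, 0 < W k) (L : ι → Fin m → ℝ) (hG : ∀ i j, (G i j : ℝ) = ∑ k, W k * (L k i * L k j))
    (hdet : G.det ≠ 0) (x : Fin m → ℝ) (hx : x ≠ 0) : 0 < ∑ i, ∑ j, x i * (G i j : ℝ) * x j := by
  rw [quad_eq G W L hG]
  have h0 : 0 ≤ ∑ k, W k * (∑ i, x i * L k i) ^ 2 :=
    Finset.sum_nonneg fun k _ => mul_nonneg (hW k).le (sq_nonneg _)
  rcases h0.lt_or_eq with h | h
  · exact h
  · exfalso
    have h1 := (Finset.sum_eq_zero_iff_of_nonneg
      (fun k _ => mul_nonneg (hW k).le (sq_nonneg (∑ i, x i * L k i)))).mp h.symm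
    have h2 : ∀ k, ∑ i, x i * L k i = 0 := by
      intro k
      have h3 := h1 k (Finset.mem_univ k)
      rcases mul_eq_zero.mp h3 with h4 | h4
      · exact absurd h4 (hW k).ne'
      · exact pow_eq_zero_iff (two_ne_zero) |>.mp h4
    have h3 : Matrix.vecMul x (G.map (fun z : ℤ => (z : ℝ))) = 0 := by
      funext j
      rw [Matrix.vecMul, dotProduct]
      have h4 : ∀ i, x i * (G.map (fun z : ℤ => (z : ℝ))) i j = ∑ k, (x i * L k i) * (W k * L k j) := by
        intro i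
        rw [Matrix.map_apply, hG, Finset.mul_sum]
        exact Finset.sum_congr rfl fun k _ => by ring
      rw [Finset.sum_congr rfl fun i _ => h4 i, Finset.sum_comm]
      refine Finset.sum_eq_zero fun k _ => ?_
      rw [← Finset.sum_mul, h2, zero_mul]
    have h5 : (G.map (fun z : ℤ => (z : ℝ))).det ≠ 0 := by
      have h6 := (Int.castRingHom ℝ).map_det G
      have h7 : (Int.castRingHom ℝ).mapMatrix G = G.map (fun z : ℤ => (z : ℝ)) := rfl
      rw [h7] at h6
      rw [← h6]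
      simpa using hdet
    exact hx (Matrix.eq_zero_of_vecMul_eq_zero h5 h3)

theorem det_pos' {m : ℕ} (G : Matrix (Fin m) (Fin m) ℤ) (hs : ∀ i j, G i j = G j i)
    (h : ∀ x : Fin m → ℝ, x ≠ 0 → 0 < ∑ i, ∑ j, x i * (G i j : ℝ) * x j) : 0 < G.det := by
  have h1 : (G.map (fun z : ℤ => (z : ℝ))).PosDef := by
    refine Matrix.PosDef.of_dotProduct_mulVec_pos ?_ ?_
    · ext i j
      simp only [Matrix.conjTranspose_apply, Matrix.map_apply, star_trivial, hs j i]
    · intro x hx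
      have h2 := h x hx
      simp only [dotProduct, Matrix.mulVec, Matrix.map_apply, Pi.star_apply, star_trivial, Finset.mul_sum]
      refine h2.trans_eq (Finset.sum_congr rfl fun i _ => Finset.sum_congr rfl fun j _ => by ring)
  have h6 := (Int.castRingHom ℝ).map_det G
  have h7 : (Int.castRingHom ℝ).mapMatrix G = G.map (fun z : ℤ => (z : ℝ)) := rfl
  rw [h7] at h6
  have h8 := h1.det_pos
  rw [← h6] at h8
  have h9 : (0 : ℝ) < (G.det : ℝ) := h8
  exact_mod_cast h9

/-! ### the theorem -/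

/-- the coordinates of a quaternion -/
def cor (x : ℍ[K]) : Fin 4 → K := ![x.re, x.imI, x.imJ, x.imK]

theorem dot_eq (x y : ℍ[K]) : dot x y = ∑ c, cor x c * cor y c := by
  rw [Fin.sum_univ_four]
  rfl

theorem int_dot (hO : S_ORD) (hD : S_DUAL) {I : AddSubgroup ℍ[K]} {n : 𝓞 K} (hI : Lat B I n) {x y : ℍ[K]}
    (hx : x ∈ I) (hy : y ∈ I) : ∃ t : 𝓞 K, 2 * dot x y = (n : K) * t := by
  obtain ⟨o, ho, h⟩ := (hD K B I n hI).2 y hy x hx
  obtain ⟨-, -, -, -, h5, -⟩ := hO K B
  obtain ⟨t, ht⟩ := (h5 o ho).2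
  refine ⟨t, ?_⟩
  rw [← re_mul_star, h, Quaternion.re_smul, smul_eq_mul, ← ht]
  ring

theorem tp_ne (B : BQ K) {n : 𝓞 K} (hn : TP (n : K)) : (n : K) ≠ 0 := by
  obtain ⟨φ, w, hw, h⟩ := lam_emb B
  have h1 := hn (φ 0)
  intro h0
  rw [h0, map_zero] at h1
  exact lt_irrefl _ h1

theorem form_int (hO : S_ORD) (hD : S_DUAL) {I : AddSubgroup ℍ[K]} {n : 𝓞 K} (hI : Lat B I n) {x y : ℍ[K]}
    (hx : x ∈ I) (hy : y ∈ I) : ∃ m : ℤ, form B n x y = m := by
  obtain ⟨t, ht⟩ := int_dot hO hD hI hx hy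
  refine ⟨B.lam t, ?_⟩
  rw [form_apply, ht, mul_div_cancel_left₀ _ (tp_ne B hI.tp), lamK_coe]

theorem form_self {I : AddSubgroup ℍ[K]} {n : 𝓞 K} (hI : Lat B I n) {x : ℍ[K]} {t : 𝓞 K}
    (ht : normSq x = (n : K) * t) : form B n x x = 2 * B.lam t := by
  rw [form_apply, dot_self, ht]
  have h1 : 2 * ((n : K) * (t : K)) / (n : K) = (2 : ℚ) • (t : K) := by
    rw [Rat.smul_def]
    have := tp_ne B hI.tp
    field_simp
    push_cast
    ring
  rw [h1, map_smul, lamK_coe, smul_eq_mul]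

theorem smul_mem' (hO : S_ORD) {I : AddSubgroup ℍ[K]} {n : 𝓞 K} (hI : Lat B I n) {x : ℍ[K]}
    (hx : x ∈ I) (u : 𝓞 K) : (u : K) • x ∈ I := by
  obtain ⟨-, -, -, h4, -, h6, -⟩ := hO K B
  have h1 := hI.mul _ x (h4 u 1 h6) hx
  rwa [smul_mul_assoc, one_mul] at h1

/-- the dual lattice for `form` is the lattice itself -/
theorem mem_of_dual (hO : S_ORD) (hD : S_DUAL) {I : AddSubgroup ℍ[K]} {n : 𝓞 K} (hI : Lat B I n) {y : ℍ[K]}
    (hy : ∀ x ∈ I, ∃ m : ℤ, form B n y x = m) : y ∈ I := by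
  refine (hD K B I n hI).1 y fun x hx => ?_
  have hn := tp_ne B hI.tp
  obtain ⟨t, ht⟩ := int_of_lam B (2 * dot y x / (n : K)) (by
    intro u
    obtain ⟨m, hm⟩ := hy _ (smul_mem' hO hI hx u)
    refine ⟨m, ?_⟩
    rw [← hm, form_apply, dot_comm y ((u : K) • x), dot_smul_left, dot_comm x y]
    congr 1
    ring)
  refine ⟨t, ?_⟩
  rw [re_mul_star, ← ht]
  field_simp

theorem t_COUNT : S_THETA → S_ORD → S_DUAL → S_COUNT := by
  intro hT hO hD K _ _ B I n hI
  have hn := tp_ne B hI.tp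
  have hlat : Submodule.IsLattice ℚ (subm I) := ⟨subm_fg hI, span_top hI⟩
  have : Module.Free ℤ (subm I) := Submodule.IsLattice.free ℚ (subm I)
  have : Module.Finite ℤ (subm I) := Submodule.IsLattice.finite ℚ (subm I)
  have hrank : finrank ℤ (subm I) = 16 := by
    have h1 := Submodule.IsLattice.rank' ℚ (subm I)
    rw [← finrankH B, finrank, finrank, h1]
  let b : Basis (Fin 16) ℤ (subm I) := Module.finBasisOfFinrankEq ℤ (subm I) hrank
  let bQ : Basis (Fin 16) ℚ ℍ[K] := b.extendOfIsLattice ℚ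
  have hbQ : ∀ i, bQ i = (b i : ℍ[K]) := fun i => Basis.extendOfIsLattice_apply ℚ b i
  have hbI : ∀ i, (b i : ℍ[K]) ∈ I := fun i => (b i).2
  -- the Gram matrix
  have hex : ∀ i j, ∃ m : ℤ, form B n (b i : ℍ[K]) (b j : ℍ[K]) = m := fun i j =>
    form_int hO hD hI (hbI i) (hbI j)
  choose G hG using hex
  have hsym : ∀ i j, G i j = G j i := by
    intro i j
    have h1 := hG i j
    rw [form_symm, hG j i] at h1
    exact_mod_cast h1.symm
  -- vectors
  have hvec : ∀ x : Fin 16 → ℤ, ((b.equivFun.symm x : subm I) : ℍ[K]) = ∑ i, x i • (b i : ℍ[K]) := by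
    intro x
    rw [Basis.equivFun_symm_apply]
    simp
  have hbil : ∀ x y : Fin 16 → ℤ, form B n ((b.equivFun.symm x : subm I) : ℍ[K])
      ((b.equivFun.symm y : subm I) : ℍ[K]) = (bf (Matrix.of G) x y : ℤ) := by
    intro x y
    rw [hvec, hvec, bf]
    simp only [map_sum, LinearMap.sum_apply, map_zsmul, LinearMap.smul_apply, hG, Matrix.of_apply]
    push_cast
    rw [Finset.sum_comm]
    refine Finset.sum_congr rfl fun i _ => ?_
    rw [Finset.smul_sum]
    refine Finset.sum_congr rfl fun j _ => ?_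
    rw [zsmul_eq_mul, zsmul_eq_mul]
    ring
  have hrepr : ∀ y : subm I, (y : ℍ[K]) = ∑ i, b.repr y i • (b i : ℍ[K]) := by
    intro y
    have h1 := hvec (b.equivFun y)
    rwa [LinearEquiv.symm_apply_apply] at h1
  -- the form is even
  have heven : ∀ x : Fin 16 → ℤ, Even (bf (Matrix.of G) x x) := by
    intro x
    obtain ⟨t, ht⟩ := hI.dvd _ (b.equivFun.symm x : subm I).2
    have h1 := hbil x x
    rw [form_self hI ht] at h1
    refine ⟨B.lam t, ?_⟩
    have h2 : (bf (Matrix.of G) x x) = 2 * B.lam t := by exact_mod_cast h1.symm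
    rw [h2]
    ring
  -- the determinant is a unit
  have hunit : ∃ C : Matrix (Fin 16) (Fin 16) ℤ, C * Matrix.of G = 1 := by
    have hnd := form_nondeg B hI.tp
    have hmem : ∀ k, (form B n).dualBasis hnd bQ k ∈ I := by
      intro k
      refine mem_of_dual hO hD hI fun x hx => ?_
      have h1 : x = ∑ i, b.repr ⟨x, hx⟩ i • (b i : ℍ[K]) := hrepr ⟨x, hx⟩
      refine ⟨b.repr ⟨x, hx⟩ k, ?_⟩
      conv_lhs => rw [h1]
      have h3 : ∀ i, form B n ((form B n).dualBasis hnd bQ k) (b i : ℍ[K]) = if i = k then 1 else 0 := by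
        intro i
        rw [← hbQ i]
        exact LinearMap.BilinForm.apply_dualBasis_left hnd bQ k i
      simp only [map_sum, map_zsmul, h3]
      simp
    refine ⟨fun k j => b.repr ⟨_, hmem k⟩ j, ?_⟩
    ext k i
    have h1 : (form B n).dualBasis hnd bQ k = ∑ j, b.repr ⟨_, hmem k⟩ j • (b j : ℍ[K]) :=
      hrepr ⟨_, hmem k⟩
    have h3 : form B n ((form B n).dualBasis hnd bQ k) (b i : ℍ[K]) = if i = k then 1 else 0 := by
      rw [← hbQ i]
      exact LinearMap.BilinForm.apply_dualBasis_left hnd bQ k i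
    conv_lhs at h3 => rw [h1]
    simp only [map_sum, LinearMap.sum_apply, map_zsmul, LinearMap.smul_apply, hG] at h3
    simp only [zsmul_eq_mul] at h3
    have h4 : (∑ j, b.repr ⟨_, hmem k⟩ j * G j i : ℤ) = if i = k then 1 else 0 := by
      have h5 : ((∑ j, b.repr ⟨_, hmem k⟩ j * G j i : ℤ) : ℚ) = ((if i = k then 1 else 0 : ℤ) : ℚ) := by
        push_cast
        exact h3
      exact_mod_cast h5
    rw [Matrix.mul_apply, Matrix.one_apply]
    simp only [Matrix.of_apply, eq_comm (a := k)]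
    exact h4
  have hdet1 : IsUnit (Matrix.of G).det := by
    obtain ⟨C, hC⟩ := hunit
    have h1 := congrArg Matrix.det hC
    rw [Matrix.det_mul, Matrix.det_one] at h1
    exact IsUnit.of_mul_eq_one _ (by rw [mul_comm]; exact h1)
  -- positive definite
  obtain ⟨φ, w, hw, hφ⟩ := lam_emb B
  have hpd : ∀ x : Fin 16 → ℝ, x ≠ 0 → 0 < ∑ i, ∑ j, x i * ((Matrix.of G) i j : ℝ) * x j := by
    refine posdef_of_squares (Matrix.of G) (ι := Fin 4 × Fin 4) (fun k => 2 * w k.1 / φ k.1 (n : K)) ?_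
      (fun k i => φ k.1 (cor (b i : ℍ[K]) k.2)) ?_ hdet1.ne_zero
    · intro k
      exact div_pos (mul_pos two_pos (hw _)) (hI.tp _)
    · intro i j
      rw [Matrix.of_apply]
      have h1 : (G i j : ℝ) = ((form B n (b i : ℍ[K]) (b j : ℍ[K]) : ℚ) : ℝ) := by
        rw [hG]
        push_cast
        rfl
      rw [h1, form_apply, hφ, Fintype.sum_prod_type]
      refine Finset.sum_congr rfl fun k _ => ?_
      rw [dot_eq, map_div₀, map_mul, map_ofNat, map_sum]
      simp only [map_mul]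
      rw [← Finset.mul_sum]
      ring
  have hdet : (Matrix.of G).det = 1 := by
    have h1 := det_pos' (Matrix.of G) (fun i j => hsym i j) hpd
    rcases Int.isUnit_iff.mp hdet1 with h2 | h2
    · exact h2
    · omega
  -- the count
  have hcount := hT (Matrix.of G) (fun i j => hsym i j) hpd hdet heven
  rw [← Nat.card_coe_set_eq, ← hcount]
  symm
  refine Nat.card_congr ?_
  have hroot : ∀ y : subm I, form B n (y : ℍ[K]) (y : ℍ[K]) = 2 ↔
      ∃ t : 𝓞 K, normSq (y : ℍ[K]) = (n : K) * t ∧ B.lam t = 1 := by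
    intro y
    constructor
    · intro h
      obtain ⟨t, ht⟩ := hI.dvd _ y.2
      refine ⟨t, ht, ?_⟩
      rw [form_self hI ht] at h
      have h2 : (B.lam t : ℚ) = 1 := by linarith
      exact_mod_cast h2
    · rintro ⟨t, ht, h⟩
      rw [form_self hI ht, h]
      norm_num
  let e1 : {x : Fin 16 → ℤ // bf (Matrix.of G) x x = 2} ≃ {y : subm I // form B n (y : ℍ[K]) (y : ℍ[K]) = 2} :=
    b.equivFun.symm.toEquiv.subtypeEquiv (fun x => by
      have h1 := hbil x x
      change _ ↔ form B n ((b.equivFun.symm x : subm I) : ℍ[K]) ((b.equivFun.symm x : subm I) : ℍ[K]) = 2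
      rw [h1]
      norm_cast)
  refine e1.trans ?_
  exact
    { toFun := fun y => ⟨(y.1 : ℍ[K]), y.1.2, (hroot y.1).mp y.2⟩
      invFun := fun z => ⟨⟨z.1, z.2.1⟩, (hroot ⟨z.1, z.2.1⟩).mpr z.2.2⟩
      left_inv := fun y => rfl
      right_inv := fun z => rfl }

end Pool.Agent.U174.TU
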