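import Pool.Agent.U68.TU.Stm

/-!
# Project TU, package COUNT, first part (helper174)

The linear form `λ` on `K`.
-/

set_option autoImplicit false

open NumberField Quaternion Module
open Pool.Agent.U68.TU

namespace Pool.Agent.U174.TU

variable {K : Type} [Field K] [NumberField K] (B : BQ K)

/-- the integral basis `1, f, s, s f` -/
noncomputable def bZ : Basis (Fin 4) ℤ (𝓞 K) := Basis.ofEquivFun B.co.toIntLinearEquiv

/-- the same basis over `ℚ` -/
noncomputable def bK : Basis (Fin 4) ℚ K := (bZ B).localizationLocalization ℚ (nonZeroDivisors ℤ) K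

/-- the linear form on `K` -/
noncomputable def lamK : K →ₗ[ℚ] ℚ := (bK B).coord 0 - (bK B).coord 2

theorem lamK_coe (x : 𝓞 K) : lamK B (x : K) = (B.lam x : ℚ) := by
  have h : ∀ i, (bK B).repr (x : K) i = (B.co x i : ℚ) := by
    intro i
    have h1 := Basis.localizationLocalization_repr_algebraMap ℚ (nonZeroDivisors ℤ) K (bZ B) x i
    rw [bK]
    exact h1
  rw [lamK, LinearMap.sub_apply, Basis.coord_apply, Basis.coord_apply, h, h, BQ.lam]
  push_cast
  rfl

theorem bZ_apply (i : Fin 4) : bZ B i = B.co.symm (Pi.single i 1) := by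
  rw [bZ, Basis.coe_ofEquivFun]
  rfl

theorem expand (x : K) : x = ((bK B).repr x 0 : ℚ) + ((bK B).repr x 1 : ℚ) * (B.f : K) +
    ((bK B).repr x 2 : ℚ) * (B.s : K) + ((bK B).repr x 3 : ℚ) * ((B.s : K) * (B.f : K)) := by
  have h0 : (bK B) 0 = 1 := by
    rw [bK, Basis.localizationLocalization_apply, bZ_apply, B.hco]
    simp
  have h1 : (bK B) 1 = (B.f : K) := by
    rw [bK, Basis.localizationLocalization_apply, bZ_apply, B.hco]
    simp
  have h2 : (bK B) 2 = (B.s : K) := by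
    rw [bK, Basis.localizationLocalization_apply, bZ_apply, B.hco]
    simp
  have h3 : (bK B) 3 = (B.s : K) * (B.f : K) := by
    rw [bK, Basis.localizationLocalization_apply, bZ_apply, B.hco]
    simp
  have h := (bK B).sum_repr x
  rw [Fin.sum_univ_four, h0, h1, h2, h3] at h
  conv_lhs => rw [← h]
  simp only [Rat.smul_def, mul_one]

theorem repr_expand (a b c d : ℚ) :
    lamK B ((a : K) + b * (B.f : K) + c * (B.s : K) + d * ((B.s : K) * (B.f : K))) = a - c := by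
  have h0 : (bK B) 0 = 1 := by
    rw [bK, Basis.localizationLocalization_apply, bZ_apply, B.hco]
    simp
  have h1 : (bK B) 1 = (B.f : K) := by
    rw [bK, Basis.localizationLocalization_apply, bZ_apply, B.hco]
    simp
  have h2 : (bK B) 2 = (B.s : K) := by
    rw [bK, Basis.localizationLocalization_apply, bZ_apply, B.hco]
    simp
  have h3 : (bK B) 3 = (B.s : K) * (B.f : K) := by
    rw [bK, Basis.localizationLocalization_apply, bZ_apply, B.hco]
    simp
  have h : ((a : K) + b * (B.f : K) + c * (B.s : K) + d * ((B.s : K) * (B.f : K))) =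
      a • bK B 0 + b • bK B 1 + c • bK B 2 + d • bK B 3 := by
    rw [h0, h1, h2, h3]
    simp only [Rat.smul_def, mul_one]
  rw [h, lamK]
  simp

theorem hsK : (B.s : K) ^ 2 = 2 := by
  have h := congrArg (algebraMap (𝓞 K) K) B.hs
  rwa [map_pow, map_ofNat] at h

theorem hfK : (B.f : K) ^ 2 = (B.f : K) + 1 := by
  have := congrArg (fun x : 𝓞 K => (x : K)) B.hf
  push_cast at this
  exact this

theorem int_of_lam (z : K) (h : ∀ u : 𝓞 K, ∃ m : ℤ, lamK B ((u : K) * z) = m) : ∃ t : 𝓞 K, z = (t : K) := by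
  have hz := expand B z
  set a := (bK B).repr z 0
  set b := (bK B).repr z 1
  set c := (bK B).repr z 2
  set d := (bK B).repr z 3
  have hs := hsK B
  have hf := hfK B
  obtain ⟨m1, h1⟩ := h 1
  obtain ⟨m2, h2⟩ := h B.f
  obtain ⟨m3, h3⟩ := h B.s
  obtain ⟨m4, h4⟩ := h (B.s * B.f)
  have e1 : ((1 : 𝓞 K) : K) * z = (a : K) + b * (B.f : K) + c * (B.s : K) + d * ((B.s : K) * (B.f : K)) := by
    rw [← hz]; simp
  have e2 : ((B.f : 𝓞 K) : K) * z = (b : K) + ((a + b : ℚ) : K) * (B.f : K) + (d : K) * (B.s : K) +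
      ((c + d : ℚ) : K) * ((B.s : K) * (B.f : K)) := by
    rw [hz]
    push_cast
    linear_combination ((b : K) + d * (B.s : K)) * hf
  have e3 : ((B.s : 𝓞 K) : K) * z = ((2 * c : ℚ) : K) + ((2 * d : ℚ) : K) * (B.f : K) + (a : K) * (B.s : K) +
      (b : K) * ((B.s : K) * (B.f : K)) := by
    rw [hz]
    push_cast
    linear_combination ((c : K) + d * (B.f : K)) * hs
  have e4 : ((B.s * B.f : 𝓞 K) : K) * z = ((2 * d : ℚ) : K) + ((2 * c + 2 * d : ℚ) : K) * (B.f : K) +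
      (b : K) * (B.s : K) + ((a + b : ℚ) : K) * ((B.s : K) * (B.f : K)) := by
    rw [hz]
    push_cast
    linear_combination ((c : K) * (B.f : K) + d * (B.f : K) ^ 2) * hs + ((b : K) * (B.s : K) + 2 * d) * hf
  rw [e1, repr_expand] at h1
  rw [e2, repr_expand] at h2
  rw [e3, repr_expand] at h3
  rw [e4, repr_expand] at h4
  have hc : c = ((m1 + m3 : ℤ) : ℚ) := by push_cast; linarith
  have ha : a = ((2 * m1 + m3 : ℤ) : ℚ) := by push_cast; linarith
  have hd : d = ((m2 + m4 : ℤ) : ℚ) := by push_cast; linarith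
  have hb : b = ((2 * m2 + m4 : ℤ) : ℚ) := by push_cast; linarith
  refine ⟨((2 * m1 + m3 : ℤ) : 𝓞 K) + ((2 * m2 + m4 : ℤ) : 𝓞 K) * B.f + ((m1 + m3 : ℤ) : 𝓞 K) * B.s +
    ((m2 + m4 : ℤ) : 𝓞 K) * (B.s * B.f), ?_⟩
  rw [hz, ha, hb, hc, hd]
  simp only [map_add, map_mul, map_intCast, Rat.cast_intCast]

/-- `λ` is a positive combination of real embeddings -/
theorem lam_emb : ∃ (φ : Fin 4 → (K →+* ℝ)) (w : Fin 4 → ℝ), (∀ i, 0 < w i) ∧
    ∀ x : K, (lamK B x : ℝ) = ∑ i, w i * φ i x := by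
  have h2 : (Real.sqrt 2) ^ 2 = 2 := Real.sq_sqrt (by norm_num)
  have h5 : (Real.sqrt 5) ^ 2 = 5 := Real.sq_sqrt (by norm_num)
  have p2 : 0 < Real.sqrt 2 := Real.sqrt_pos.mpr (by norm_num)
  have p5 : 0 < Real.sqrt 5 := Real.sqrt_pos.mpr (by norm_num)
  have q2 : 1 < Real.sqrt 2 := by
    rw [show (1 : ℝ) = Real.sqrt 1 by simp]; exact Real.sqrt_lt_sqrt (by norm_num) (by norm_num)
  have q5 : 1 < Real.sqrt 5 := by
    rw [show (1 : ℝ) = Real.sqrt 1 by simp]; exact Real.sqrt_lt_sqrt (by norm_num) (by norm_num)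
  obtain ⟨φ1, a1, b1⟩ := B.emb (Real.sqrt 2) ((1 + Real.sqrt 5) / 2) h2 (by nlinarith)
  obtain ⟨φ2, a2, b2⟩ := B.emb (Real.sqrt 2) ((1 - Real.sqrt 5) / 2) h2 (by nlinarith)
  obtain ⟨φ3, a3, b3⟩ := B.emb (-Real.sqrt 2) ((1 + Real.sqrt 5) / 2) (by rw [neg_sq]; exact h2) (by nlinarith)
  obtain ⟨φ4, a4, b4⟩ := B.emb (-Real.sqrt 2) ((1 - Real.sqrt 5) / 2) (by rw [neg_sq]; exact h2) (by nlinarith)
  have wp : ∀ u v : ℝ, 0 < u → 0 < v → 0 < u / (2 * Real.sqrt 2) * (v / (2 * Real.sqrt 5)) :=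
    fun u v hu hv => by positivity
  refine ⟨![φ1, φ2, φ3, φ4],
    ![(Real.sqrt 2 - 1) / (2 * Real.sqrt 2) * ((Real.sqrt 5 - 1) / (2 * Real.sqrt 5)),
      (Real.sqrt 2 - 1) / (2 * Real.sqrt 2) * ((Real.sqrt 5 + 1) / (2 * Real.sqrt 5)),
      (Real.sqrt 2 + 1) / (2 * Real.sqrt 2) * ((Real.sqrt 5 - 1) / (2 * Real.sqrt 5)),
      (Real.sqrt 2 + 1) / (2 * Real.sqrt 2) * ((Real.sqrt 5 + 1) / (2 * Real.sqrt 5))], ?_, ?_⟩
  · intro i
    fin_cases i
    · exact wp _ _ (by linarith) (by linarith)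
    · exact wp _ _ (by linarith) (by linarith)
    · exact wp _ _ (by linarith) (by linarith)
    · exact wp _ _ (by linarith) (by linarith)
  · intro x
    have hx := expand B x
    have hl : lamK B x = (bK B).repr x 0 - (bK B).repr x 2 := rfl
    rw [hl]
    set a := (bK B).repr x 0
    set b := (bK B).repr x 1
    set c := (bK B).repr x 2
    set d := (bK B).repr x 3
    have e : ∀ φ : K →+* ℝ, φ x = a + b * φ (B.f : K) + c * φ (B.s : K) + d * (φ (B.s : K) * φ (B.f : K)) := by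
      intro φ
      conv_lhs => rw [hx]
      simp only [map_add, map_mul, map_ratCast]
    rw [Fin.sum_univ_four]
    change ((a - c : ℚ) : ℝ) = (Real.sqrt 2 - 1) / (2 * Real.sqrt 2) * ((Real.sqrt 5 - 1) / (2 * Real.sqrt 5)) * φ1 x +
      (Real.sqrt 2 - 1) / (2 * Real.sqrt 2) * ((Real.sqrt 5 + 1) / (2 * Real.sqrt 5)) * φ2 x +
      (Real.sqrt 2 + 1) / (2 * Real.sqrt 2) * ((Real.sqrt 5 - 1) / (2 * Real.sqrt 5)) * φ3 x +
      (Real.sqrt 2 + 1) / (2 * Real.sqrt 2) * ((Real.sqrt 5 + 1) / (2 * Real.sqrt 5)) * φ4 x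
    rw [e φ1, e φ2, e φ3, e φ4, a1, a2, a3, a4, b1, b2, b3, b4]
    push_cast
    field_simp
    ring_nf

end Pool.Agent.U174.TU
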